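import Mathlib

/-!
# Admissible Banach spaces have modulus of convexity of power type 2

If every Lipschitz-open, second order Lipschitz map from an open subset of a normed space `X`
to `X` is locally convex, then the modulus of convexity of `X` is of power type `2`.

Proof. If it is not of power type `2` there are unit vectors `x`, `y` with
`1 - ‖(x + y) / 2‖ < ε ‖x - y‖² / 200`. With a norming functional `φ` of `x - y` and a vector `v` in
the kernel of `φ` which points away from the unit ball at `(x + y) / 2` the map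
`u ↦ u + φ(u)² v / 4` has a non-convex image of the ball of radius `ε` about `0`. These maps
(for `ε = 1, 1/2, 1/3, …`) are put together on a union of disjoint balls.
-/

set_option autoImplicit false

open Metric Set

namespace Pool.Agent.Results.MP_122452_an.PowerTypeTwo

universe u

section defs

variable (X : Type u) [NormedAddCommGroup X] [NormedSpace ℝ X]

/-- The modulus of convexity `δ` of `X` satisfies `δ t ≥ L t ^ 2` for all `t ∈ [0, 2]`, for some
`L > 0`; here `δ t` is the infimum of `1 - ‖(x + y) / 2‖` over the pairs of unit vectors with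
`‖x - y‖ ≥ t`. -/
def PowerTypeTwoModulus : Prop :=
  ∃ L : ℝ, 0 < L ∧ ∀ t : ℝ, 0 ≤ t → t ≤ 2 → ∀ x y : X, ‖x‖ = 1 → ‖y‖ = 1 → t ≤ ‖x - y‖ →
    L * t ^ 2 ≤ 1 - ‖(1 / 2 : ℝ) • (x + y)‖

variable {X}

/-- `f : U → X` is second order Lipschitz: the second differences
`f (x + h) - 2 f x + f (x - h)`, over all segments `[x - h, x + h]` contained in `U`, are bounded
by a constant times `‖h‖ ^ 2`. -/
def SecondOrderLipschitz (U : Set X) (f : X → X) : Prop :=
  ∃ K : ℝ, ∀ x h : X, segment ℝ (x - h) (x + h) ⊆ U →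
    ‖f (x + h) - (2 : ℝ) • f x + f (x - h)‖ ≤ K * ‖h‖ ^ 2

/-- `f : U → X` is Lipschitz-open: the image of a ball of radius `ε` contained in `U` contains the
ball of radius `c ε` about the image of the centre. -/
def LipschitzOpen (U : Set X) (f : X → X) : Prop :=
  ∃ c : ℝ, 0 < c ∧ ∀ x ∈ U, ∀ ε : ℝ, 0 < ε → ball x ε ⊆ U →
    ball (f x) (c * ε) ⊆ f '' ball x ε

/-- `f : U → X` is locally convex: the images of the balls of radius at most `c` contained in `U`
are convex. -/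
def LocallyConvexMap (U : Set X) (f : X → X) : Prop :=
  ∃ c : ℝ, 0 < c ∧ ∀ ε : ℝ, 0 < ε → ε ≤ c → ∀ x ∈ U, ball x ε ⊆ U → Convex ℝ (f '' ball x ε)

variable (X)

/-- `X` is admissible: for every open subset `U` of `X`, every Lipschitz-open, second order
Lipschitz map from `U` to `X` is locally convex. (Maps `U → X` are given by maps `X → X`, whose
values outside `U` play no role.) -/
def Admissible : Prop :=
  ∀ U : Set X, IsOpen U → ∀ f : X → X, LipschitzOpen U f → SecondOrderLipschitz U f →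
    LocallyConvexMap U f

end defs

variable {X : Type u} [NormedAddCommGroup X] [NormedSpace ℝ X]

theorem data (h : ¬ PowerTypeTwoModulus X) {ε : ℝ} (h0 : 0 < ε) (h1 : ε ≤ 1) :
    ∃ (x y v : X) (φ g : X →L[ℝ] ℝ) (s : ℝ), ‖x‖ = 1 ∧ ‖y‖ = 1 ∧ ‖φ‖ ≤ 1 ∧ ‖g‖ ≤ 1 ∧ φ v = 0 ∧
      ‖v‖ ≤ 2 ∧ 0 < s ∧ s < 1 ∧
      1 ≤ s * ((g x + g y) / 2) + s ^ 2 * ε / 16 * (φ x - φ y) ^ 2 * g v := by
  unfold PowerTypeTwoModulus at h
  push Not at h
  obtain ⟨t, ht0, ht2, x, y, hx, hy, hxy, hlt⟩ := h (ε / 200) (by positivity)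
  set τ := ‖x - y‖ with hτ
  set z : X := (1 / 2 : ℝ) • (x + y) with hz
  have hτ2 : τ ≤ 2 := by
    have := norm_sub_le x y
    rw [hx, hy] at this; linarith
  have hz1 : ‖z‖ ≤ 1 := by
    have := norm_add_le x y
    rw [hz, norm_smul]; rw [hx, hy] at this; norm_num; linarith
  have hδ : 1 - ‖z‖ < ε / 200 * τ ^ 2 := by
    refine lt_of_lt_of_le hlt ?_
    have : t ^ 2 ≤ τ ^ 2 := by gcongr
    gcongr
  have hτ0 : 0 < τ := by
    rcases (norm_nonneg (x - y)).eq_or_lt with h | h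
    · rw [← hτ] at h; rw [← h] at hδ; nlinarith
    · exact h
  have hxy0 : x - y ≠ 0 := norm_pos_iff.1 hτ0
  obtain ⟨φ, hφ, hφw⟩ := exists_dual_vector ℝ (x - y) (by simpa using hxy0)
  have ha : ε / 200 * τ ^ 2 ≤ 1 / 50 := by nlinarith
  have hzpos : 0 < ‖z‖ := by linarith
  obtain ⟨g, hg, hgz⟩ := exists_dual_vector ℝ z (by simpa using hzpos)
  simp only [RCLike.ofReal_real_eq_id, id] at hφw hgz
  have hgle : ∀ u : X, g u ≤ ‖u‖ := fun u => by
    have := g.le_opNorm u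
    rw [hg, one_mul] at this
    exact (le_abs_self _).trans this
  have hφabs : ∀ u : X, |φ u| ≤ ‖u‖ := fun u => by
    have := φ.le_opNorm u
    rwa [hφ, one_mul] at this
  have hgsum : (g x + g y) / 2 = ‖z‖ := by
    rw [← hgz, hz, map_smul, map_add]; simp; ring
  have hgx : g x ≤ 1 := hx ▸ hgle x
  have hgy : g y ≤ 1 := hy ▸ hgle y
  have hgw : |g (x - y)| ≤ 2 * (1 - ‖z‖) := by
    rw [map_sub, abs_le]; constructor <;> linarith
  have hφw' : φ x - φ y = τ := by rw [← map_sub, hφw]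
  set a : ℝ := ε / 200 * τ ^ 2 with ha'
  have ha0 : 0 < a := by positivity
  clear_value z
  refine ⟨x, y, z - (φ z / τ) • (x - y), φ, g, 1 - a, hx, hy, hφ.le, hg.le, ?_, ?_, by linarith,
    by linarith, ?_⟩
  · rw [map_sub, map_smul, hφw, ← hτ, smul_eq_mul]; field_simp; ring
  · have h2 : ‖(φ z / τ) • (x - y)‖ = |φ z| := by
      rw [norm_smul, ← hτ, Real.norm_eq_abs, abs_div, abs_of_pos hτ0]; field_simp
    have := norm_sub_le z ((φ z / τ) • (x - y))
    have := hφabs z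
    linarith
  · have hgv : 9 / 10 ≤ g (z - (φ z / τ) • (x - y)) := by
      rw [map_sub, map_smul, hgz, smul_eq_mul]
      have h3 : |φ z / τ * g (x - y)| ≤ 1 / 50 := by
        rw [abs_mul, abs_div, abs_of_pos hτ0]
        have h4 : |φ z| ≤ 1 := (hφabs z).trans hz1
        have h5 : |g (x - y)| ≤ τ / 50 := by
          refine hgw.trans ?_
          have : 2 * (1 - ‖z‖) ≤ 2 * (ε / 200 * τ ^ 2) := by linarith
          nlinarith
        calc |φ z| / τ * |g (x - y)| ≤ 1 / τ * (τ / 50) := by gcongr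
          _ = 1 / 50 := by field_simp
      have := le_abs_self (φ z / τ * g (x - y))
      linarith
    rw [hgsum, hφw']
    have h6 : (1 - a) * (1 - a) ≤ (1 - a) * ‖z‖ := by
      apply mul_le_mul_of_nonneg_left _ (by linarith)
      linarith
    have h7 : (1 - a) ^ 2 * ε / 16 * τ ^ 2 * (9 / 10) ≤
        (1 - a) ^ 2 * ε / 16 * τ ^ 2 * g (z - (φ z / τ) • (x - y)) := by gcongr
    have h8 : (1 - a) ^ 2 * ε / 16 * τ ^ 2 * (9 / 10) = (1 - a) ^ 2 * (45 / 4 * a) := by
      rw [ha']; ring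
    have h9 : 1 ≤ (1 - a) * (1 - a) + (1 - a) ^ 2 * (45 / 4 * a) := by
      have e : (1 - a) * (1 - a) + (1 - a) ^ 2 * (45 / 4 * a) - 1 =
        a * (37 / 4 - a * (43 / 2) + a ^ 2 * (45 / 4)) := by ring
      have : 0 ≤ a * (37 / 4 - a * (43 / 2) + a ^ 2 * (45 / 4)) := by
        apply mul_nonneg ha0.le
        nlinarith
      linarith
    linarith

/-- The local model. -/
noncomputable def F (c v : X) (φ : X →L[ℝ] ℝ) (u : X) : X := u + (1 / 4 * φ (u - c) ^ 2 : ℝ) • v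

theorem F_inv {c v : X} {φ : X →L[ℝ] ℝ} (hv : φ v = 0) (w : X) :
    F c v φ (w - (1 / 4 * φ (w - c) ^ 2 : ℝ) • v) = w := by
  have : φ (w - (1 / 4 * φ (w - c) ^ 2 : ℝ) • v - c) = φ (w - c) := by
    rw [sub_right_comm, map_sub, map_smul, hv]; simp
  rw [F, this]; abel

theorem phi_F {c v : X} {φ : X →L[ℝ] ℝ} (hv : φ v = 0) (u : X) :
    φ (F c v φ u - c) = φ (u - c) := by
  rw [F, add_sub_right_comm, map_add, map_smul, hv]; simp

theorem eq_of_F {c v : X} {φ : X →L[ℝ] ℝ} (hv : φ v = 0) {u w : X} (h : F c v φ u = w) :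
    u = w - (1 / 4 * φ (w - c) ^ 2 : ℝ) • v := by
  have h1 := phi_F (c := c) hv u
  rw [h] at h1
  rw [h1, ← h, F]; abel

theorem F_open {c v x : X} {φ : X →L[ℝ] ℝ} (hv : φ v = 0) (hv2 : ‖v‖ ≤ 2) (hφ : ‖φ‖ ≤ 1)
    {r : ℝ} (hr : 0 < r) (hr1 : r ≤ 1) (hx : ‖x - c‖ ≤ 1) :
    ball (F c v φ x) (1 / 3 * r) ⊆ F c v φ '' ball x r := by
  intro w hw
  have hφabs : ∀ u : X, |φ u| ≤ ‖u‖ := fun u =>
    (φ.le_opNorm u).trans (by nlinarith [norm_nonneg u])
  refine ⟨w - (1 / 4 * φ (w - c) ^ 2 : ℝ) • v, ?_, F_inv hv w⟩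
  set p := F c v φ x with hp
  have hxp : x = p - (1 / 4 * φ (p - c) ^ 2 : ℝ) • v := eq_of_F hv rfl
  rw [mem_ball, dist_eq_norm] at hw ⊢
  have e : w - (1 / 4 * φ (w - c) ^ 2 : ℝ) • v - x =
      (w - p) - (1 / 4 * (φ (w - p) * (φ (w - p) + 2 * φ (p - c))) : ℝ) • v := by
    have h2 : φ (w - c) = φ (w - p) + φ (p - c) := by rw [← map_add]; congr 1; abel
    conv_lhs => rw [hxp]
    rw [h2]
    module
  rw [e]
  have h3 : |φ (p - c)| ≤ 1 := by
    rw [hp, phi_F hv]; exact (hφabs _).trans hx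
  have h4 : |φ (w - p)| ≤ ‖w - p‖ := hφabs _
  have h5 : |φ (w - p) + 2 * φ (p - c)| ≤ 7 / 3 := by
    refine (abs_add_le _ _).trans ?_
    rw [abs_mul, abs_two]; linarith
  calc ‖(w - p) - (1 / 4 * (φ (w - p) * (φ (w - p) + 2 * φ (p - c))) : ℝ) • v‖
      ≤ ‖w - p‖ + 1 / 4 * (‖w - p‖ * (7 / 3)) * 2 := by
        refine (norm_sub_le _ _).trans ?_
        rw [norm_smul, Real.norm_eq_abs, abs_mul, abs_mul]
        have : |(1 / 4 : ℝ)| = 1 / 4 := abs_of_pos (by norm_num)
        rw [this]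
        gcongr
    _ < r := by linarith

theorem F_second {c v : X} {φ : X →L[ℝ] ℝ} (hv2 : ‖v‖ ≤ 2) (hφ : ‖φ‖ ≤ 1) (x h : X) :
    ‖F c v φ (x + h) - (2 : ℝ) • F c v φ x + F c v φ (x - h)‖ ≤ 1 * ‖h‖ ^ 2 := by
  have h2 : φ (x + h - c) = φ (x - c) + φ h := by rw [← map_add]; congr 1; abel
  have h3 : φ (x - h - c) = φ (x - c) - φ h := by rw [← map_sub]; congr 1; abel
  have e : F c v φ (x + h) - (2 : ℝ) • F c v φ x + F c v φ (x - h) =
      (1 / 2 * φ h ^ 2 : ℝ) • v := by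
    rw [F, F, F, h2, h3]; module
  have hφh : |φ h| ≤ ‖h‖ := (φ.le_opNorm h).trans (by nlinarith [norm_nonneg h])
  rw [e, norm_smul, Real.norm_eq_abs, abs_mul, abs_pow]
  have : |(1 / 2 : ℝ)| = 1 / 2 := abs_of_pos (by norm_num)
  rw [this]
  calc 1 / 2 * |φ h| ^ 2 * ‖v‖ ≤ 1 / 2 * ‖h‖ ^ 2 * 2 := by gcongr
    _ = 1 * ‖h‖ ^ 2 := by ring

theorem F_not_convex {c x y v : X} {φ g : X →L[ℝ] ℝ} {s ε : ℝ} (hε : 0 < ε) (hx : ‖x‖ = 1)
    (hy : ‖y‖ = 1) (hg : ‖g‖ ≤ 1) (hv : φ v = 0) (hs0 : 0 < s) (hs1 : s < 1)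
    (h : 1 ≤ s * ((g x + g y) / 2) + s ^ 2 * ε / 16 * (φ x - φ y) ^ 2 * g v) :
    ¬ Convex ℝ (F c v φ '' ball c ε) := by
  intro hc
  have hm : ∀ a : X, ‖a‖ = 1 → F c v φ (c + (s * ε) • a) ∈ F c v φ '' ball c ε := by
    intro a ha
    refine ⟨_, ?_, rfl⟩
    rw [mem_ball, dist_eq_norm, add_sub_cancel_left, norm_smul, ha, mul_one, Real.norm_eq_abs,
      abs_of_pos (by positivity)]
    nlinarith
  obtain ⟨u, hu, hu2⟩ := hc (hm x hx) (hm y hy) (by norm_num : (0 : ℝ) ≤ 1 / 2)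
    (by norm_num : (0 : ℝ) ≤ 1 / 2) (by norm_num)
  have h1 := eq_of_F hv hu2
  have hF : ∀ a : X, F c v φ (c + (s * ε) • a) =
      c + (s * ε) • a + (1 / 4 * ((s * ε) * φ a) ^ 2 : ℝ) • v := by
    intro a
    rw [F, add_sub_cancel_left, map_smul, smul_eq_mul]
  have h2 : φ ((1 / 2 : ℝ) • F c v φ (c + (s * ε) • x) + (1 / 2 : ℝ) • F c v φ (c + (s * ε) • y) - c)
      = (s * ε) * ((φ x + φ y) / 2) := by
    rw [hF, hF]
    simp only [map_sub, map_add, map_smul, hv, smul_eq_mul]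
    ring
  have h3 : u - c = (s * ε / 2) • (x + y) + (s ^ 2 * ε ^ 2 / 16 * (φ x - φ y) ^ 2 : ℝ) • v := by
    rw [h1, h2, hF, hF]
    module
  rw [mem_ball, dist_eq_norm] at hu
  have h4 : g (u - c) ≤ ‖u - c‖ := by
    have := g.le_opNorm (u - c)
    exact (le_abs_self _).trans (this.trans (by nlinarith [norm_nonneg (u - c)]))
  have h5 : g (u - c) = ε * (s * ((g x + g y) / 2) + s ^ 2 * ε / 16 * (φ x - φ y) ^ 2 * g v) := by
    rw [h3, map_add, map_smul, map_smul, map_add, smul_eq_mul, smul_eq_mul]; ring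
  have h6 : ε * 1 ≤ g (u - c) := by
    rw [h5]; exact mul_le_mul_of_nonneg_left h hε.le
  linarith

/-- **Every admissible space has modulus of convexity of power type 2.** -/
theorem result (X : Type u) [NormedAddCommGroup X] [NormedSpace ℝ X] (hX : Admissible X) :
    PowerTypeTwoModulus X := by
  classical
  by_contra hP
  have hpos : ∀ k : ℕ, (0 : ℝ) < 1 / ((k : ℝ) + 1) := fun k => by positivity
  have hle : ∀ k : ℕ, 1 / ((k : ℝ) + 1) ≤ 1 := fun k => by
    rw [div_le_one (by positivity)]; linarith [Nat.cast_nonneg (α := ℝ) k]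
  choose x y v φ g s hx hy hφ hg hφv hv hs0 hs1 hkey using
    fun k : ℕ => data hP (hpos k) (hle k)
  set ε : ℕ → ℝ := fun k => 1 / ((k : ℝ) + 1) with hε
  set e : X := x 0 with he
  have hen : ‖e‖ = 1 := hx 0
  set c : ℕ → X := fun k => (3 * (k : ℝ)) • e with hc
  have hcd : ∀ j k : ℕ, j ≠ k → 3 ≤ ‖c j - c k‖ := by
    intro j k hjk
    rw [hc]
    simp only
    rw [← sub_smul, norm_smul, hen, mul_one, ← mul_sub, norm_mul, Real.norm_eq_abs,
      Real.norm_eq_abs, abs_of_pos (by norm_num : (0 : ℝ) < 3)]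
    have : (1 : ℝ) ≤ |(j : ℝ) - k| := by
      have h1 : (1 : ℤ) ≤ |(j : ℤ) - k| := Int.one_le_abs (by omega)
      exact_mod_cast h1
    linarith
  have hdisj : ∀ j k : ℕ, j ≠ k → Disjoint (ball (c j) (ε j)) (ball (c k) (ε k)) := by
    intro j k hjk
    apply ball_disjoint_ball
    rw [dist_eq_norm]
    have := hcd j k hjk
    have := hle j
    have := hle k
    simp only [hε]
    linarith
  set U : Set X := ⋃ k, ball (c k) (ε k) with hU
  have hUo : IsOpen U := isOpen_iUnion fun k => isOpen_ball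
  let f : X → X := fun u => if h : ∃ k, u ∈ ball (c k) (ε k) then
    F (c h.choose) (v h.choose) (φ h.choose) u else u
  have hf : ∀ k, ∀ u ∈ ball (c k) (ε k), f u = F (c k) (v k) (φ k) u := by
    intro k u hu
    have h : ∃ k, u ∈ ball (c k) (ε k) := ⟨k, hu⟩
    have h1 : h.choose = k := by
      by_contra h2
      exact Set.disjoint_left.1 (hdisj _ _ h2) h.choose_spec hu
    simp only [f]
    rw [dif_pos h, h1]
  have hconn : ∀ (S : Set X) (k : ℕ), IsPreconnected S → S ⊆ U →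
      (S ∩ ball (c k) (ε k)).Nonempty → S ⊆ ball (c k) (ε k) := by
    intro S k hS hSU hne
    refine hS.subset_left_of_subset_union (v := ⋃ j, ⋃ (_ : j ≠ k), ball (c j) (ε j)) isOpen_ball
      (isOpen_iUnion fun j => isOpen_iUnion fun _ => isOpen_ball) ?_ ?_ hne
    · rw [Set.disjoint_iUnion_right]
      intro j
      rw [Set.disjoint_iUnion_right]
      intro hj
      exact hdisj _ _ hj.symm
    · intro u hu
      obtain ⟨j, hj⟩ := Set.mem_iUnion.1 (hSU hu)
      by_cases hjk : j = k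
      · subst hjk; exact Or.inl hj
      · exact Or.inr (Set.mem_iUnion.2 ⟨j, Set.mem_iUnion.2 ⟨hjk, hj⟩⟩)
  have hopen : LipschitzOpen U f := by
    refine ⟨1 / 3, by norm_num, ?_⟩
    intro p hp r hr hball
    obtain ⟨k, hk⟩ := Set.mem_iUnion.1 hp
    have hsub := hconn (ball p r) k (convex_ball p r).isPreconnected hball
      ⟨p, mem_ball_self hr, hk⟩
    have hr1 : r ≤ 1 := by
      by_contra hr1
      push Not at hr1
      have h1 : p + e ∈ ball p r := by
        rw [mem_ball, dist_eq_norm, add_sub_cancel_left, hen]; exact hr1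
      have h2 : p - e ∈ ball p r := by
        rw [mem_ball, dist_eq_norm, sub_sub_cancel_left, norm_neg, hen]; exact hr1
      have h3 := hsub h1
      have h4 := hsub h2
      rw [mem_ball, dist_eq_norm] at h3 h4
      have h5 := norm_sub_le (p + e - c k) (p - e - c k)
      have h6 : p + e - c k - (p - e - c k) = (2 : ℝ) • e := by module
      rw [h6, norm_smul, hen] at h5
      norm_num at h5
      have := hle k
      simp only [hε] at h3 h4
      linarith
    have hpk : ‖p - c k‖ ≤ 1 := by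
      rw [mem_ball, dist_eq_norm] at hk
      exact hk.le.trans (hle k)
    have h2 : f '' ball p r = F (c k) (v k) (φ k) '' ball p r :=
      Set.image_congr fun u hu => hf k u (hsub hu)
    rw [h2, hf k p hk]
    exact F_open (hφv k) (hv k) (hφ k) hr hr1 hpk
  have hsecond : SecondOrderLipschitz U f := by
    refine ⟨1, ?_⟩
    intro p h hseg
    have hp : p ∈ segment ℝ (p - h) (p + h) :=
      ⟨1 / 2, 1 / 2, by norm_num, by norm_num, by norm_num, by module⟩
    obtain ⟨k, hk⟩ := Set.mem_iUnion.1 (hseg hp)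
    have hsub := hconn _ k (convex_segment _ _).isPreconnected hseg ⟨p, hp, hk⟩
    rw [hf k p hk, hf k _ (hsub (right_mem_segment ℝ _ _)),
      hf k _ (hsub (left_mem_segment ℝ _ _))]
    exact F_second (hv k) (hφ k) p h
  obtain ⟨cc, hcc0, hcc⟩ := hX U hUo f hopen hsecond
  obtain ⟨k, hk⟩ := exists_nat_one_div_lt hcc0
  have hcU : c k ∈ U := Set.mem_iUnion.2 ⟨k, mem_ball_self (hpos k)⟩
  have h1 := hcc (ε k) (hpos k) hk.le (c k) hcU (Set.subset_iUnion (fun k => ball (c k) (ε k)) k)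
  have h2 : f '' ball (c k) (ε k) = F (c k) (v k) (φ k) '' ball (c k) (ε k) :=
    Set.image_congr fun u hu => hf k u hu
  rw [h2] at h1
  exact F_not_convex (hpos k) (hx k) (hy k) (hg k) (hφv k) (hs0 k) (hs1 k) (hkey k) h1

end Pool.Agent.Results.MP_122452_an.PowerTypeTwo
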